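import Pool.Agent.Helper111.EN.Resid

/-!
# Automorphisms acting trivially on virtually nilpotent quotients

`act ρ K` is the subgroup of the elements of `A` which act trivially modulo `K`.
-/

set_option autoImplicit false

namespace Pool.Agent.R569.CS

open scoped commutatorElement

universe u v

variable {G : Type u} [Group G] {A : Type v} [Group A]

/-- The elements of `A` which act trivially modulo `K`. -/
def act (ρ : A →* MulAut G) (K : Subgroup G) : Subgroup A where
  carrier := {a | ∀ x, ρ a x * x⁻¹ ∈ K}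
  one_mem' := by
    intro x
    rw [map_one, MulAut.one_apply, mul_inv_cancel]
    exact K.one_mem
  mul_mem' := by
    intro a b ha hb x
    have h : ρ (a * b) x * x⁻¹ = (ρ a (ρ b x) * (ρ b x)⁻¹) * (ρ b x * x⁻¹) := by
      rw [map_mul, MulAut.mul_apply]
      group
    rw [h]
    exact K.mul_mem (ha _) (hb _)
  inv_mem' := by
    intro a ha x
    have h1 := ha (ρ a⁻¹ x)
    have h2 : ρ a (ρ a⁻¹ x) = x := by
      rw [← MulAut.mul_apply, ← map_mul, mul_inv_cancel, map_one, MulAut.one_apply]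
    rw [h2] at h1
    have h3 := K.inv_mem h1
    rwa [mul_inv_rev, inv_inv] at h3

theorem mem_act {ρ : A →* MulAut G} {K : Subgroup G} {a : A} :
    a ∈ act ρ K ↔ ∀ x, ρ a x * x⁻¹ ∈ K := Iff.rfl

theorem act_mono {ρ : A →* MulAut G} {K K' : Subgroup G} (h : K ≤ K') : act ρ K ≤ act ρ K' :=
  fun _ ha x => h (ha x)

/-- elements acting trivially modulo `K` -/
theorem mk_act {ρ : A →* MulAut G} {K : Subgroup G} [K.Normal] {a : A} (ha : a ∈ act ρ K) (x : G) :
    (QuotientGroup.mk (ρ a x) : G ⧸ K) = QuotientGroup.mk x := by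
  have h := ha x
  have h2 : (ρ a x)⁻¹ * x ∈ K := by
    have h3 := (inferInstance : K.Normal).conj_mem _ (K.inv_mem h) (x⁻¹)
    have h4 : x⁻¹ * (ρ a x * x⁻¹)⁻¹ * x⁻¹⁻¹ = (ρ a x)⁻¹ * x := by group
    rwa [h4] at h3
  exact QuotientGroup.eq.2 h2

theorem act_of_mk {ρ : A →* MulAut G} {K : Subgroup G} [K.Normal] {a : A}
    (h : ∀ x, (QuotientGroup.mk (ρ a x) : G ⧸ K) = QuotientGroup.mk x) : a ∈ act ρ K := by
  intro x
  have h1 := QuotientGroup.eq.1 (h x)
  have h3 := (inferInstance : K.Normal).conj_mem _ (K.inv_mem h1) x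
  have h4 : x * ((ρ a x)⁻¹ * x)⁻¹ * x⁻¹ = ρ a x * x⁻¹ := by group
  rwa [h4] at h3

/-- it is enough to check the generators -/
theorem act_of_gen {ρ : A →* MulAut G} {K : Subgroup G} [K.Normal] {a : A} {S : Set G}
    (hS : Subgroup.closure S = ⊤) (h : ∀ x ∈ S, ρ a x * x⁻¹ ∈ K) : a ∈ act ρ K := by
  apply act_of_mk
  have h1 : (QuotientGroup.mk' K).comp (ρ a).toMonoidHom = QuotientGroup.mk' K := by
    apply MonoidHom.eq_of_eqOn_dense hS
    intro x hx
    have h2 := h x hx
    show (QuotientGroup.mk (ρ a x) : G ⧸ K) = QuotientGroup.mk x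
    rw [QuotientGroup.eq]
    have h3 := (inferInstance : K.Normal).conj_mem _ (K.inv_mem h2) (x⁻¹)
    have h4 : x⁻¹ * (ρ a x * x⁻¹)⁻¹ * x⁻¹⁻¹ = (ρ a x)⁻¹ * x := by group
    rwa [h4] at h3
  intro x
  exact DFunLike.congr_fun h1 x

/-- `act ρ K` is normal for characteristic `K` -/
theorem act_normal (ρ : A →* MulAut G) (K : Subgroup G) [hK : K.Characteristic] :
    (act ρ K).Normal := by
  constructor
  intro a ha b x
  have h1 := ha (ρ b⁻¹ x)
  have h2 : ρ (b * a * b⁻¹) x * x⁻¹ = ρ b (ρ a (ρ b⁻¹ x) * (ρ b⁻¹ x)⁻¹) := by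
    have h3 : ρ b (ρ b⁻¹ x) = x := by
      rw [← MulAut.mul_apply, ← map_mul, mul_inv_cancel, map_one, MulAut.one_apply]
    rw [map_mul (ρ b), map_inv (ρ b), h3, map_mul ρ, map_mul ρ, MulAut.mul_apply,
      MulAut.mul_apply]
  rw [h2]
  have h4 := Subgroup.characteristic_iff_le_comap.1 hK (ρ b) h1
  exact h4

/-- `act ρ K` has finite index for characteristic `K` of finite index -/
theorem act_finiteIndex (ρ : A →* MulAut G) (K : Subgroup G) [hK : K.Characteristic]
    [hf : K.FiniteIndex] : (act ρ K).FiniteIndex := by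
  have : Finite (G ⧸ K) := Subgroup.finite_quotient_of_finiteIndex
  have hmap : ∀ a : A, K.map (ρ a).toMonoidHom = K := fun a =>
    Subgroup.characteristic_iff_map_eq.1 hK (ρ a)
  let f : A →* Equiv.Perm (G ⧸ K) :=
    { toFun := fun a => (QuotientGroup.congr K K (ρ a) (hmap a)).toEquiv
      map_one' := by
        ext q
        induction q using QuotientGroup.induction_on with
        | H z =>
          show (QuotientGroup.mk (ρ 1 z) : G ⧸ K) = QuotientGroup.mk z
          rw [map_one, MulAut.one_apply]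
      map_mul' := by
        intro a b
        ext q
        induction q using QuotientGroup.induction_on with
        | H z =>
          show (QuotientGroup.mk (ρ (a * b) z) : G ⧸ K) = QuotientGroup.mk (ρ a (ρ b z))
          rw [map_mul, MulAut.mul_apply] }
  have hle : f.ker ≤ act ρ K := by
    intro a ha
    apply act_of_mk
    intro x
    have h1 : f a (QuotientGroup.mk x) = QuotientGroup.mk x := by
      rw [MonoidHom.mem_ker.1 ha]
      rfl
    exact h1
  have : f.ker.FiniteIndex := inferInstance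
  exact Subgroup.finiteIndex_of_le hle

/-- the elements of `A` acting trivially modulo `γ_{j+2} Γ` act trivially on
`γ_{j+2} Γ / γ_{j+3} Γ` -/
theorem act_layer (ρ : A →* MulAut G) (Γ : Subgroup G) [Γ.Normal] (j : ℕ) {a : A}
    (ha : a ∈ act ρ (Γ.lowerCentralSeries (j + 1))) (y : G)
    (hy : y ∈ Γ.lowerCentralSeries (j + 1)) :
    (QuotientGroup.mk (ρ a y) : G ⧸ Γ.lowerCentralSeries (j + 2)) = QuotientGroup.mk y := by
  let π := QuotientGroup.mk' (Γ.lowerCentralSeries (j + 2))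
  have hc : ∀ p ∈ Γ.lowerCentralSeries (j + 1), ∀ q ∈ Γ, Commute (π p) (π q) := by
    intro p hp q hq
    have h1 : ⁅p, q⁆ ∈ Γ.lowerCentralSeries (j + 2) :=
      Subgroup.commutator_mem_commutator hp hq
    have h2 : π ⁅p, q⁆ = 1 := (QuotientGroup.eq_one_iff _).2 h1
    rw [map_commutatorElement] at h2
    exact commutatorElement_eq_one_iff_commute.1 h2
  have key : Γ.lowerCentralSeries (j + 1) ≤ (π.comp (ρ a).toMonoidHom).eqLocus π := by
    rw [Subgroup.lowerCentralSeries_succ, Subgroup.commutator_le]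
    intro p hp q hq
    show π (ρ a ⁅p, q⁆) = π ⁅p, q⁆
    rw [map_commutatorElement (ρ a), map_commutatorElement π, map_commutatorElement π]
    have hpΓ : p ∈ Γ := Γ.lowerCentralSeries_le_self j hp
    have h1 : π (ρ a p) = π (ρ a p * p⁻¹) * π p := by rw [← map_mul]; congr 1; group
    have h2 : π (ρ a q) = π (ρ a q * q⁻¹) * π q := by rw [← map_mul]; congr 1; group
    have hap := ha p
    have haq := ha q
    have haqΓ : ρ a q * q⁻¹ ∈ Γ := Γ.lowerCentralSeries_le_self _ haq
    have c1 := hc _ hap q hq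
    have c2 := hc _ hap _ haqΓ
    have c3 := hc _ haq p hpΓ
    have c4 := hc _ hap p hpΓ
    have c5 := hc _ haq q hq
    rw [h1, h2]
    generalize π (ρ a p * p⁻¹) = s at *
    generalize π (ρ a q * q⁻¹) = t at *
    generalize π p = x at *
    generalize π q = y at *
    have e1 : s * x * (t * y) = (t * s) * (x * y) := by
      calc s * x * (t * y) = s * (x * t) * y := by group
        _ = s * (t * x) * y := by rw [c3.eq]
        _ = (s * t) * (x * y) := by group
        _ = _ := by rw [c2.eq]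
    have e2 : (t * y) * (s * x) = (t * s) * (y * x) := by
      calc (t * y) * (s * x) = t * (y * s) * x := by group
        _ = t * (s * y) * x := by rw [c1.eq]
        _ = _ := by group
    have c6 : Commute (t * s) (x * y * x⁻¹ * y⁻¹) := by
      apply Commute.mul_left
      · exact ((c3.mul_right c5).mul_right c3.inv_right).mul_right c5.inv_right
      · exact ((c4.mul_right c1).mul_right c4.inv_right).mul_right c1.inv_right
    rw [commutatorElement_def, commutatorElement_def]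
    calc s * x * (t * y) * (s * x)⁻¹ * (t * y)⁻¹ = (s * x * (t * y)) * ((t * y) * (s * x))⁻¹ := by
          group
      _ = ((t * s) * (x * y)) * ((t * s) * (y * x))⁻¹ := by rw [e1, e2]
      _ = (t * s) * (x * y * x⁻¹ * y⁻¹) * (t * s)⁻¹ := by group
      _ = x * y * x⁻¹ * y⁻¹ := by rw [c6.eq]; group
  exact key hy

/-- The elements of `A` which act trivially modulo `R` and from `R` to `R / R'`. -/
def lay (ρ : A →* MulAut G) (R R' : Subgroup G) [R'.Normal] : Subgroup A where
  carrier := {a | (∀ x, ρ a x * x⁻¹ ∈ R) ∧ ∀ x ∈ R, ρ a x * x⁻¹ ∈ R'}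
  one_mem' := by
    refine ⟨(act ρ R).one_mem, fun x _ => (act ρ R').one_mem x⟩
  mul_mem' := by
    rintro a b ⟨ha, ha'⟩ ⟨hb, hb'⟩
    refine ⟨(act ρ R).mul_mem ha hb, fun x hx => ?_⟩
    have h : ρ (a * b) x * x⁻¹ = (ρ a (ρ b x) * (ρ b x)⁻¹) * (ρ b x * x⁻¹) := by
      rw [map_mul, MulAut.mul_apply]
      group
    have hbx : ρ b x ∈ R := by
      have h1 := R.mul_mem (hb x) hx
      rwa [inv_mul_cancel_right] at h1
    rw [h]
    exact R'.mul_mem (ha' _ hbx) (hb' _ hx)
  inv_mem' := by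
    rintro a ⟨ha, ha'⟩
    refine ⟨(act ρ R).inv_mem ha, fun x hx => ?_⟩
    have h2 : ρ a (ρ a⁻¹ x) = x := by
      rw [← MulAut.mul_apply, ← map_mul, mul_inv_cancel, map_one, MulAut.one_apply]
    have h3 : ρ a⁻¹ x ∈ R := by
      have h1 := R.mul_mem ((act ρ R).inv_mem ha x) hx
      rwa [inv_mul_cancel_right] at h1
    have h1 := ha' _ h3
    rw [h2] at h1
    have h4 := R'.inv_mem h1
    rwa [mul_inv_rev, inv_inv] at h4

theorem mem_lay {ρ : A →* MulAut G} {R R' : Subgroup G} [R'.Normal] {a : A} :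
    a ∈ lay ρ R R' ↔ (∀ x, ρ a x * x⁻¹ ∈ R) ∧ ∀ x ∈ R, ρ a x * x⁻¹ ∈ R' := Iff.rfl

theorem lay_le {ρ : A →* MulAut G} {R R' : Subgroup G} [R'.Normal] : lay ρ R R' ≤ act ρ R :=
  fun _ h => h.1

theorem mk_lay {ρ : A →* MulAut G} {R R' : Subgroup G} [R'.Normal] {a : A}
    (ha : a ∈ lay ρ R R') {x : G} (hx : x ∈ R) :
    (QuotientGroup.mk (ρ a x) : G ⧸ R') = QuotientGroup.mk x := by
  have h := ha.2 x hx
  have h2 : (ρ a x)⁻¹ * x ∈ R' := by
    have h3 := (inferInstance : R'.Normal).conj_mem _ (R'.inv_mem h) (x⁻¹)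
    have h4 : x⁻¹ * (ρ a x * x⁻¹)⁻¹ * x⁻¹⁻¹ = (ρ a x)⁻¹ * x := by group
    rwa [h4] at h3
  exact QuotientGroup.eq.2 h2

theorem lay_normal (ρ : A →* MulAut G) (R R' : Subgroup G) [hR : R.Characteristic]
    [hR' : R'.Characteristic] : (lay ρ R R').Normal := by
  constructor
  rintro a ⟨ha, ha'⟩ b
  refine ⟨(act_normal ρ R).conj_mem a ha b, fun x hx => ?_⟩
  have hbx : ρ b⁻¹ x ∈ R := Subgroup.characteristic_iff_le_comap.1 hR (ρ b⁻¹) hx
  have h1 := ha' _ hbx
  have h2 : ρ (b * a * b⁻¹) x * x⁻¹ = ρ b (ρ a (ρ b⁻¹ x) * (ρ b⁻¹ x)⁻¹) := by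
    have h3 : ρ b (ρ b⁻¹ x) = x := by
      rw [← MulAut.mul_apply, ← map_mul, mul_inv_cancel, map_one, MulAut.one_apply]
    rw [map_mul (ρ b), map_inv (ρ b), h3, map_mul ρ, map_mul ρ, MulAut.mul_apply,
      MulAut.mul_apply]
  rw [h2]
  exact Subgroup.characteristic_iff_le_comap.1 hR' (ρ b) h1

theorem lay_succ (ρ : A →* MulAut G) (Γ : Subgroup G) [Γ.Normal] (j : ℕ) :
    lay ρ (Γ.lowerCentralSeries (j + 1)) (Γ.lowerCentralSeries (j + 2)) =
      act ρ (Γ.lowerCentralSeries (j + 1)) := by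
  apply le_antisymm lay_le
  intro a ha
  refine ⟨ha, fun x hx => ?_⟩
  have h1 := QuotientGroup.eq.1 (act_layer ρ Γ j ha x hx)
  have h3 := (inferInstance : (Γ.lowerCentralSeries (j + 2)).Normal).conj_mem _
    ((Γ.lowerCentralSeries (j + 2)).inv_mem h1) x
  have h4 : x * ((ρ a x)⁻¹ * x)⁻¹ * x⁻¹ = ρ a x * x⁻¹ := by group
  rwa [h4] at h3

end Pool.Agent.R569.CS
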