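import Pool.Agent.R569.CS.Core

/-!
# One layer of the lower central series
-/

set_option autoImplicit false

namespace Pool.Agent.R569.CS

open scoped commutatorElement

universe u v

/-- in a finitely generated abelian group the elements which have a power in a subgroup `W` have a
common power in `W` -/
theorem root_bound {E : Type u} [CommGroup E] [Group.FG E] (W : Subgroup E) :
    ∃ k : ℕ, 0 < k ∧ ∀ e : E, (∃ l : ℕ, 0 < l ∧ e ^ l ∈ W) → e ^ k ∈ W := by
  have hfg : Group.FG (E ⧸ W) := QuotientGroup.fg _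
  have hnil : Group.IsNilpotent (E ⧸ W) := inferInstance
  have hT : (CommGroup.torsion (E ⧸ W)).FG :=
    Pool.Agent.Helper111.EN.NSc.NS_of_nilpotent_fg (⊤ : Subgroup (E ⧸ W))
      (Group.isNilpotent_top.2 hnil) hfg.out _ le_top
  have hT2 : Group.FG (CommGroup.torsion (E ⧸ W)) := (Group.fg_iff_subgroup_fg _).2 hT
  have hfin : Finite (CommGroup.torsion (E ⧸ W)) := by
    apply Pool.Agent.Helper111.EN.finite_of_fg_nilpotent
    intro g
    have h := g.2
    obtain ⟨n, hn, h2⟩ := isOfFinOrder_iff_pow_eq_one.1 h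
    exact isOfFinOrder_iff_pow_eq_one.2 ⟨n, hn, Subtype.ext h2⟩
  refine ⟨Nat.card (CommGroup.torsion (E ⧸ W)), Nat.card_pos, ?_⟩
  rintro e ⟨l, hl, hel⟩
  have h1 : (QuotientGroup.mk e : E ⧸ W) ∈ CommGroup.torsion (E ⧸ W) := by
    apply isOfFinOrder_iff_pow_eq_one.2
    refine ⟨l, hl, ?_⟩
    rw [← QuotientGroup.mk_pow]
    exact (QuotientGroup.eq_one_iff _).2 hel
  have h2 : (⟨QuotientGroup.mk e, h1⟩ : CommGroup.torsion (E ⧸ W)) ^
      Nat.card (CommGroup.torsion (E ⧸ W)) = 1 := pow_card_eq_one'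
  have h3 : (QuotientGroup.mk e : E ⧸ W) ^ Nat.card (CommGroup.torsion (E ⧸ W)) = 1 :=
    congrArg Subtype.val h2
  rw [← QuotientGroup.mk_pow] at h3
  exact (QuotientGroup.eq_one_iff _).1 h3

/-! ### Characteristic subgroups of finite index (after `Pool.Agent.Helper611.PcGrp`) -/

theorem finite_hom {R : Type u} [Group R] [hR : Group.FG R] (H : Type v) [Group H] [Finite H] :
    Finite (R →* H) := by
  obtain ⟨S', hS, hfin⟩ := Group.fg_iff.mp hR
  have : Finite S' := hfin
  refine Finite.of_injective (fun (f : R →* H) (s : S') => f s) ?_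
  intro f g hfg
  apply MonoidHom.eq_of_eqOn_dense hS
  intro x hx
  exact congrFun hfg ⟨x, hx⟩

theorem charCore {R : Type u} [Group R] [hR : Group.FG R] (S : Subgroup R) (hS : S.FiniteIndex) :
    ∃ K : Subgroup R, K.Characteristic ∧ K.FiniteIndex ∧ K ≤ S := by
  have hq : Finite (R ⧸ S) := Subgroup.finite_quotient_of_finiteIndex
  let n := Nat.card (R ⧸ S)
  let e : R ⧸ S ≃ Fin n := Finite.equivFin _
  have hfin : Finite (R →* Equiv.Perm (Fin n)) := finite_hom _
  refine ⟨⨅ f : R →* Equiv.Perm (Fin n), f.ker, ⟨?_⟩, ?_, ?_⟩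
  · intro φ
    ext x
    simp only [Subgroup.mem_comap, Subgroup.mem_iInf, MonoidHom.mem_ker]
    constructor
    · intro h f
      have := h (f.comp φ.symm.toMonoidHom)
      simpa using this
    · intro h f
      exact h (f.comp φ.toMonoidHom)
  · apply Subgroup.finiteIndex_iInf
    intro f
    infer_instance
  · intro x hx
    rw [Subgroup.mem_iInf] at hx
    have h1 := hx ((e.permCongrHom.toMonoidHom).comp (MulAction.toPermHom R (R ⧸ S)))
    rw [MonoidHom.mem_ker, MonoidHom.comp_apply] at h1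
    have h2 : MulAction.toPermHom R (R ⧸ S) x = 1 :=
      e.permCongrHom.injective (by rw [map_one]; exact h1)
    have h3 := congrArg (fun p => p ((1 : R) : R ⧸ S)) h2
    simp only [MulAction.toPermHom_apply, MulAction.toPerm_apply, Equiv.Perm.one_apply] at h3
    have h4 : ((x * 1 : R) : R ⧸ S) = ((1 : R) : R ⧸ S) := h3
    rw [mul_one, eq_comm, QuotientGroup.eq] at h4
    simpa using h4

theorem fi_comap {R : Type u} {R' : Type v} [Group R] [Group R'] (f : R' →* R) (H : Subgroup R)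
    [H.FiniteIndex] : (H.comap f).FiniteIndex :=
  ⟨by
    rw [Subgroup.index_comap]
    exact (inferInstance : (H.subgroupOf f.range).FiniteIndex).index_ne_zero⟩

/-! ### The layer -/

instance instCenterCommGroup (P : Type u) [Group P] : CommGroup (Subgroup.center P) :=
  { (inferInstance : Group (Subgroup.center P)) with
    mul_comm := fun a b => Subtype.ext (Subgroup.mem_center_iff.1 b.2 a) }

variable {G : Type u} [Group G]

/-- a subgroup of finite index detects the elements of a finite quotient of the centre of a finitely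
generated nilpotent group -/
theorem sep_center {P : Type u} [Group P] [Group.FG P] [Group.IsNilpotent P] {m : ℕ}
    (hm : 0 < m) : ∃ K : Subgroup P, K.FiniteIndex ∧
      ∀ c : Subgroup.center P, (c : P) ∈ K → ∃ e : Subgroup.center P, e ^ m = c := by
  have hZfg : Group.FG (Subgroup.center P) := (Group.fg_iff_subgroup_fg _).2 Pool.Agent.Helper111.EN.center_fg
  let B : Subgroup (Subgroup.center P) :=
    (powMonoidHom m : Subgroup.center P →* Subgroup.center P).range
  let Cm : Subgroup P := B.map (Subgroup.center P).subtype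
  have hCm : Cm.Normal := by
    constructor
    rintro _ ⟨c, hc, rfl⟩ g
    have h1 : g * (c : P) * g⁻¹ = c := by
      rw [Subgroup.mem_center_iff.1 c.2 g, mul_assoc, mul_inv_cancel, mul_one]
    refine ⟨c, hc, ?_⟩
    exact h1.symm
  have hfgR : Group.FG (P ⧸ Cm) := QuotientGroup.fg _
  have hD : Group.FG (Subgroup.center P ⧸ B) := QuotientGroup.fg _
  have hfin : Finite (Subgroup.center P ⧸ B) := by
    apply Pool.Agent.Helper111.EN.finite_of_fg_nilpotent
    intro g
    induction g using QuotientGroup.induction_on with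
    | H z =>
      refine isOfFinOrder_iff_pow_eq_one.2 ⟨m, hm, ?_⟩
      rw [← QuotientGroup.mk_pow]
      exact (QuotientGroup.eq_one_iff _).2 ⟨z, rfl⟩
  have hsep : ∀ d : {d : Subgroup.center P ⧸ B // d ≠ 1}, ∃ N : Subgroup (P ⧸ Cm), N.FiniteIndex ∧
      (QuotientGroup.mk ((Quotient.out d.1 : Subgroup.center P) : P) : P ⧸ Cm) ∉ N := by
    intro d
    obtain ⟨r, -, -, N, hN, h1, h2, -⟩ := Pool.Agent.Helper111.EN.resid (K := P ⧸ Cm) ∅
      (by simp) 2 Nat.prime_two (by simp) (by simp)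
      (QuotientGroup.mk ((Quotient.out d.1 : Subgroup.center P) : P)) (by
        intro h
        obtain ⟨c, hc, h3⟩ := (QuotientGroup.eq_one_iff _).1 h
        have h4 : c = Quotient.out d.1 := Subtype.ext h3
        rw [h4] at hc
        apply d.2
        rw [← QuotientGroup.out_eq' d.1]
        exact (QuotientGroup.eq_one_iff _).2 hc)
    exact ⟨N, Subgroup.finiteIndex_of_finite_quotient, h1⟩
  choose N hN1 hN2 using hsep
  refine ⟨⨅ d, (N d).comap (QuotientGroup.mk' Cm), Subgroup.finiteIndex_iInf fun d => ?_, ?_⟩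
  · have := hN1 d
    exact fi_comap _ _
  intro c hc
  by_contra hno
  have hd : (QuotientGroup.mk c : Subgroup.center P ⧸ B) ≠ 1 := by
    intro h
    obtain ⟨e, he⟩ := (QuotientGroup.eq_one_iff _).1 h
    exact hno ⟨e, he⟩
  rw [Subgroup.mem_iInf] at hc
  have h1 := hc ⟨_, hd⟩
  apply hN2 ⟨_, hd⟩
  have h2 : (QuotientGroup.mk (c : P) : P ⧸ Cm) =
      QuotientGroup.mk ((Quotient.out (QuotientGroup.mk c : Subgroup.center P ⧸ B) : Subgroup.center P) : P) := by
    rw [QuotientGroup.eq]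
    have h3 : (QuotientGroup.mk (Quotient.out (QuotientGroup.mk c : Subgroup.center P ⧸ B)) : Subgroup.center P ⧸ B) =
      QuotientGroup.mk c := QuotientGroup.out_eq' _
    have h4 := QuotientGroup.eq.1 h3.symm
    exact ⟨_, h4, rfl⟩
  rw [← h2]
  exact h1

section

variable (Γ : Subgroup G) [Γ.Normal] (i : ℕ)

/-- the image of `Γ` in the quotient of `G` by `γ_{i+2} Γ` -/
abbrev Im : Subgroup (G ⧸ Γ.lowerCentralSeries (i + 1)) :=
  Γ.map (QuotientGroup.mk' (Γ.lowerCentralSeries (i + 1)))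

theorem im_nilpotent : Group.IsNilpotent (Im Γ i) := by
  rw [Subgroup.isNilpotent_iff_lowerCentralSeries]
  refine ⟨i + 1, ?_⟩
  rw [← Subgroup.map_lowerCentralSeries, Subgroup.map_eq_bot_iff, QuotientGroup.ker_mk']

theorem im_fg [Group.FG G] [Γ.FiniteIndex] : Group.FG (Im Γ i) := by
  have h1 : Group.FG Γ := Subgroup.fg_of_index_ne_zero Γ
  exact Group.fg_of_surjective
    (MonoidHom.subgroupMap_surjective (QuotientGroup.mk' (Γ.lowerCentralSeries (i + 1))) Γ)

/-- the elements of `γ_{i+1} Γ` give central elements -/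
theorem im_central {y : G} (hy : y ∈ Γ.lowerCentralSeries i) :
    (⟨QuotientGroup.mk' (Γ.lowerCentralSeries (i + 1)) y,
      ⟨y, Γ.lowerCentralSeries_le_self _ hy, rfl⟩⟩ : Im Γ i) ∈ Subgroup.center (Im Γ i) := by
  rw [Subgroup.mem_center_iff]
  rintro ⟨_, q, hq, rfl⟩
  apply Subtype.ext
  have h1 : ⁅y, q⁆ ∈ Γ.lowerCentralSeries (i + 1) :=
    Subgroup.commutator_mem_commutator hy hq
  have h2 : QuotientGroup.mk' (Γ.lowerCentralSeries (i + 1)) ⁅y, q⁆ = 1 :=
    (QuotientGroup.eq_one_iff _).2 h1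
  rw [map_commutatorElement] at h2
  exact (commutatorElement_eq_one_iff_commute.1 h2).eq.symm

/-- the central element given by an element of `γ_{i+1} Γ` -/
def cen (y : G) (hy : y ∈ Γ.lowerCentralSeries i) : Subgroup.center (Im Γ i) :=
  ⟨_, im_central Γ i hy⟩

theorem cen_val (y : G) (hy : y ∈ Γ.lowerCentralSeries i) :
    ((cen Γ i y hy : Im Γ i) : G ⧸ Γ.lowerCentralSeries (i + 1)) = QuotientGroup.mk y := rfl

theorem cen_eq {y z : G} {hy : y ∈ Γ.lowerCentralSeries i}
    {hz : z ∈ Γ.lowerCentralSeries i}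
    (h : (QuotientGroup.mk y : G ⧸ Γ.lowerCentralSeries (i + 1)) = QuotientGroup.mk z) :
    cen Γ i y hy = cen Γ i z hz :=
  Subtype.ext (Subtype.ext h)

theorem cen_mul {y z : G} (hy : y ∈ Γ.lowerCentralSeries i)
    (hz : z ∈ Γ.lowerCentralSeries i) (hyz : y * z ∈ Γ.lowerCentralSeries i) :
    cen Γ i (y * z) hyz = cen Γ i y hy * cen Γ i z hz := rfl

/-- a characteristic subgroup of finite index detects the `m`-th powers of central elements -/
theorem sep [Group.FG G] [Γ.FiniteIndex] {m : ℕ} (hm : 0 < m) :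
    ∃ K : Subgroup G, K.Characteristic ∧ K.FiniteIndex ∧
      ∀ x ∈ K, ∀ hx : x ∈ Γ.lowerCentralSeries i,
        ∃ e : Subgroup.center (Im Γ i), e ^ m = cen Γ i x hx := by
  have := im_nilpotent Γ i
  have := im_fg Γ i
  obtain ⟨K0, h0, h1⟩ := sep_center (P := Im Γ i) hm
  let f : Γ →* Im Γ i := (QuotientGroup.mk' (Γ.lowerCentralSeries (i + 1))).subgroupMap Γ
  have h2 : (K0.comap f).FiniteIndex := fi_comap f K0
  have h3 : ((K0.comap f).map Γ.subtype).FiniteIndex := by
    constructor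
    rw [Subgroup.index_map_subtype]
    exact mul_ne_zero h2.index_ne_zero Subgroup.FiniteIndex.index_ne_zero
  obtain ⟨K, hK1, hK2, hK3⟩ := charCore _ h3
  refine ⟨K, hK1, hK2, ?_⟩
  intro x hxK hx
  apply h1
  obtain ⟨y, hy, rfl⟩ := hK3 hxK
  exact hy

end

variable {A : Type v} [Group A]

/-- One layer: in a subgroup `V` of finite index of `A` which contains the elements acting trivially
modulo `γ_{i+2} Γ`, there are all elements acting trivially modulo `γ_{i+1} Γ` and modulo a suitable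
characteristic subgroup of finite index. -/
theorem layer [Group.FG G] (ρ : A →* MulAut G) (Γ : Subgroup G) [Γ.Normal] [Γ.FiniteIndex] (i : ℕ)
    (V : Subgroup A) [hV : V.FiniteIndex] (hVj : act ρ (Γ.lowerCentralSeries (i + 1)) ≤ V) :
    ∃ K : Subgroup G, K.Characteristic ∧ K.FiniteIndex ∧
      lay ρ (Γ.lowerCentralSeries i) (Γ.lowerCentralSeries (i + 1)) ⊓ act ρ K ≤ V := by
  have hn := im_nilpotent Γ i
  have hf := im_fg Γ i
  have hcf : Group.FG (Subgroup.center (Im Γ i)) :=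
    (Group.fg_iff_subgroup_fg _).2 Pool.Agent.Helper111.EN.center_fg
  obtain ⟨S, hS, hSf⟩ := Group.fg_iff.1 (inferInstance : Group.FG G)
  have : Finite S := hSf
  let U := lay ρ (Γ.lowerCentralSeries i) (Γ.lowerCentralSeries (i + 1))
  let D : U →* (S → Subgroup.center (Im Γ i)) :=
    { toFun := fun u s => cen Γ i (ρ u.1 s.1 * s.1⁻¹) (u.2.1 s.1)
      map_one' := by
        funext s
        have h : (QuotientGroup.mk (ρ (1 : A) s.1 * s.1⁻¹) : G ⧸ Γ.lowerCentralSeries (i + 1)) =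
            QuotientGroup.mk 1 := by
          rw [map_one, MulAut.one_apply, mul_inv_cancel]
        exact Subtype.ext (Subtype.ext h)
      map_mul' := by
        intro u v
        funext s
        have h1 : ρ (u.1 * v.1) s.1 * s.1⁻¹ =
            ρ u.1 (ρ v.1 s.1 * s.1⁻¹) * (ρ u.1 s.1 * s.1⁻¹) := by
          rw [map_mul ρ, MulAut.mul_apply, map_mul (ρ u.1), map_inv (ρ u.1)]
          group
        have h2 := mk_lay u.2 (v.2.1 s.1)
        have h3 : (QuotientGroup.mk (ρ (u.1 * v.1) s.1 * s.1⁻¹) :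
            G ⧸ Γ.lowerCentralSeries (i + 1)) =
            QuotientGroup.mk (ρ v.1 s.1 * s.1⁻¹) * QuotientGroup.mk (ρ u.1 s.1 * s.1⁻¹) := by
          rw [h1, QuotientGroup.mk_mul, h2]
        have h4 : cen Γ i (ρ (u.1 * v.1) s.1 * s.1⁻¹) ((u * v).2.1 s.1) =
            cen Γ i (ρ v.1 s.1 * s.1⁻¹) (v.2.1 s.1) * cen Γ i (ρ u.1 s.1 * s.1⁻¹) (u.2.1 s.1) :=
          Subtype.ext (Subtype.ext h3)
        exact h4.trans (mul_comm _ _) }
  obtain ⟨k, hk, hroot⟩ := root_bound D.range
  let d := V.index.factorial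
  have hd : ∀ a : A, a ^ d ∈ V := fun a =>
    Subgroup.pow_mem_of_index_ne_zero_of_dvd hV.index_ne_zero a
      (fun m h1 h2 => Nat.dvd_factorial h1 h2)
  have hdpos : 0 < d := Nat.factorial_pos _
  obtain ⟨K, hK1, hK2, hK3⟩ := sep Γ i (Nat.mul_pos hk hdpos)
  refine ⟨K, hK1, hK2, ?_⟩
  rintro u ⟨hu, huK⟩
  have h1 : ∀ s : S, ∃ e : Subgroup.center (Im Γ i), e ^ (k * d) = D ⟨u, hu⟩ s :=
    fun s => hK3 _ (huK s.1) (hu.1 s.1)
  choose e he using h1
  have h2 : e ^ (k * d) = D ⟨u, hu⟩ := funext he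
  obtain ⟨w, hw⟩ := hroot e ⟨k * d, Nat.mul_pos hk hdpos, ⟨⟨u, hu⟩, h2.symm⟩⟩
  have h3 : D (w ^ d) = D ⟨u, hu⟩ := by
    rw [map_pow, hw, ← pow_mul, h2]
  have h4 : D ((w ^ d)⁻¹ * ⟨u, hu⟩) = 1 := by
    rw [map_mul, map_inv, h3, inv_mul_cancel]
  have h5 : (w.1 ^ d)⁻¹ * u ∈ act ρ (Γ.lowerCentralSeries (i + 1)) := by
    apply act_of_gen hS
    intro s hs
    have h6 := congrFun h4 ⟨s, hs⟩
    have h7 : (QuotientGroup.mk (ρ ((w.1 ^ d)⁻¹ * u) s * s⁻¹) :
        G ⧸ Γ.lowerCentralSeries (i + 1)) = 1 :=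
      congrArg Subtype.val (congrArg Subtype.val h6)
    exact (QuotientGroup.eq_one_iff _).1 h7
  have h8 := V.mul_mem (hd w.1) (hVj h5)
  rwa [mul_inv_cancel_left] at h8

/-- `A` has the congruence subgroup property for the subgroups which contain all elements acting
trivially modulo `R` -/
def CSP (ρ : A →* MulAut G) (R : Subgroup G) : Prop :=
  ∀ V : Subgroup A, V.FiniteIndex → act ρ R ≤ V →
    ∃ K : Subgroup G, K.Characteristic ∧ K.FiniteIndex ∧ act ρ K ≤ V

theorem csp_step [Group.FG G] (ρ : A →* MulAut G) (Γ : Subgroup G) [Γ.Characteristic]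
    [Γ.FiniteIndex] (i : ℕ) (h : ∀ V : Subgroup A, V.FiniteIndex →
      lay ρ (Γ.lowerCentralSeries i) (Γ.lowerCentralSeries (i + 1)) ≤ V →
        ∃ K : Subgroup G, K.Characteristic ∧ K.FiniteIndex ∧ act ρ K ≤ V) :
    CSP ρ (Γ.lowerCentralSeries (i + 1)) := by
  intro V hV hVj
  obtain ⟨K1, hc1, hf1, h1⟩ := layer ρ Γ i V hVj
  have hU : (lay ρ (Γ.lowerCentralSeries i) (Γ.lowerCentralSeries (i + 1))).Normal :=
    lay_normal ρ _ _
  have hA1 : (act ρ K1).FiniteIndex := act_finiteIndex ρ K1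
  have hfi : ((V ⊓ act ρ K1) ⊔
      lay ρ (Γ.lowerCentralSeries i) (Γ.lowerCentralSeries (i + 1))).FiniteIndex :=
    Subgroup.finiteIndex_of_le (H := V ⊓ act ρ K1) le_sup_left
  obtain ⟨K2, hc2, hf2, h2⟩ := h _ hfi le_sup_right
  refine ⟨K1 ⊓ K2, ?_, inferInstance, ?_⟩
  · rw [Subgroup.characteristic_iff_map_eq]
    intro φ
    rw [Subgroup.map_inf_eq _ _ _ φ.injective, Subgroup.characteristic_iff_map_eq.1 hc1,
      Subgroup.characteristic_iff_map_eq.1 hc2]
  intro a ha
  have ha1 : a ∈ act ρ K1 := act_mono inf_le_left ha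
  have ha2 := h2 (act_mono inf_le_right ha)
  rw [← SetLike.mem_coe, Subgroup.mul_normal] at ha2
  obtain ⟨ν, hν, ι, hι, rfl⟩ := ha2
  have h3 : ι ∈ act ρ K1 := by
    have := (act ρ K1).mul_mem ((act ρ K1).inv_mem hν.2) ha1
    rwa [inv_mul_cancel_left] at this
  exact V.mul_mem hν.1 (h1 ⟨hι, h3⟩)

theorem csp_succ [Group.FG G] (ρ : A →* MulAut G) (Γ : Subgroup G) [Γ.Characteristic]
    [Γ.FiniteIndex] (j : ℕ) (h : CSP ρ (Γ.lowerCentralSeries (j + 1))) :
    CSP ρ (Γ.lowerCentralSeries (j + 2)) := by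
  apply csp_step
  intro V hV hle
  rw [lay_succ] at hle
  exact h V hV hle

/-- If the finite-index subgroups of `A` which contain all elements acting trivially on `G / Γ` and
on `Γ / [Γ, Γ]` are congruence subgroups, then so are the finite-index subgroups which contain all
elements acting trivially modulo `γ_{c+1} Γ`. -/
theorem csp_all [Group.FG G] (ρ : A →* MulAut G) (Γ : Subgroup G) [Γ.Characteristic]
    [Γ.FiniteIndex] (h : ∀ V : Subgroup A, V.FiniteIndex → lay ρ Γ ⁅Γ, Γ⁆ ≤ V →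
      ∃ K : Subgroup G, K.Characteristic ∧ K.FiniteIndex ∧ act ρ K ≤ V) (c : ℕ) :
    CSP ρ (Γ.lowerCentralSeries c) := by
  have h1 : CSP ρ (Γ.lowerCentralSeries 1) := csp_step ρ Γ 0 h
  induction c with
  | zero =>
    intro V hV hle
    exact h1 V hV ((act_mono (Γ.lowerCentralSeries_antitone (Nat.zero_le 1))).trans hle)
  | succ n ih =>
    cases n with
    | zero => exact h1
    | succ j => exact csp_succ ρ Γ j ih

end Pool.Agent.R569.CS
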