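import Pool.Agent.R569.CS.Layer

/-!
# Congruence subgroups and virtually nilpotent quotients: the two consequences
-/

set_option autoImplicit false

namespace Pool.Agent.R569.CS

open scoped commutatorElement

universe u v

variable {G : Type u} [Group G]

/-- finite-index subgroups of the group `T` of the automorphisms acting trivially on `G / Γ` and on
`Γ / [Γ, Γ]` -/
theorem torelli_csp [Group.FG G] (Γ : Subgroup G) [Γ.Characteristic] [Γ.FiniteIndex] (c : ℕ)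
    (V : Subgroup (lay (MonoidHom.id (MulAut G)) Γ ⁅Γ, Γ⁆)) (hV : V.FiniteIndex)
    (h : ∀ a : lay (MonoidHom.id (MulAut G)) Γ ⁅Γ, Γ⁆,
      (∀ x, a.1 x * x⁻¹ ∈ Γ.lowerCentralSeries c) → a ∈ V) :
    ∃ K : Subgroup G, K.Characteristic ∧ K.FiniteIndex ∧
      ∀ a : lay (MonoidHom.id (MulAut G)) Γ ⁅Γ, Γ⁆, (∀ x, a.1 x * x⁻¹ ∈ K) → a ∈ V := by
  let ρ : lay (MonoidHom.id (MulAut G)) Γ ⁅Γ, Γ⁆ →* MulAut G := Subgroup.subtype _
  have h1 := csp_all ρ Γ (fun V' _ hle => ⟨⊤, inferInstance, inferInstance, fun a _ => hle a.2⟩) c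
    V hV (fun a ha => h a ha)
  obtain ⟨K, hK1, hK2, hK3⟩ := h1
  exact ⟨K, hK1, hK2, fun a ha => hK3 ha⟩

/-- the reduction, for outer automorphisms -/
theorem outer_csp [Group.FG G] (Γ : Subgroup G) [Γ.Characteristic] [Γ.FiniteIndex]
    (hyp : ∀ V : Subgroup (MulAut G), V.FiniteIndex →
      (∀ φ : MulAut G, (∀ x, φ x * x⁻¹ ∈ Γ) → (∀ x ∈ Γ, φ x * x⁻¹ ∈ ⁅Γ, Γ⁆) → φ ∈ V) →
      ∃ K : Subgroup G, K.Characteristic ∧ K.FiniteIndex ∧
        ∀ φ : MulAut G, (∀ x, φ x * x⁻¹ ∈ K) → φ ∈ V) (c : ℕ)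
    (H : Subgroup (MulAut G)) (hH : H.FiniteIndex) (hinn : ∀ x : G, MulAut.conj x ∈ H)
    (hc : ∀ φ : MulAut G,
      (∃ g : G, ∀ x : G, φ x * (g * x * g⁻¹)⁻¹ ∈ Γ.lowerCentralSeries c) → φ ∈ H) :
    ∃ K : Subgroup G, K.Characteristic ∧ K.FiniteIndex ∧
      ∀ φ : MulAut G, (∃ g : G, ∀ x : G, φ x * (g * x * g⁻¹)⁻¹ ∈ K) → φ ∈ H := by
  have h1 := csp_all (MonoidHom.id (MulAut G)) Γ (fun V' hV' hle => by
    obtain ⟨K, hK1, hK2, hK3⟩ := hyp V' hV' (fun φ h1 h2 => hle ⟨h1, h2⟩)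
    exact ⟨K, hK1, hK2, fun a ha => hK3 a ha⟩) c H hH (fun φ hφ => by
      apply hc φ
      refine ⟨1, fun x => ?_⟩
      have := hφ x
      simpa using this)
  obtain ⟨K, hK1, hK2, hK3⟩ := h1
  refine ⟨K, hK1, hK2, ?_⟩
  rintro φ ⟨g, hg⟩
  have h2 : (MulAut.conj g)⁻¹ * φ ∈ act (MonoidHom.id (MulAut G)) K := by
    intro x
    have h3 : ((MulAut.conj g)⁻¹ * φ : MulAut G) x * x⁻¹ =
        (MulAut.conj g)⁻¹ (φ x * (g * x * g⁻¹)⁻¹) := by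
      rw [MulAut.mul_apply, map_mul, map_inv, MulAut.conj_inv_apply, MulAut.conj_inv_apply]
      group
    show ((MulAut.conj g)⁻¹ * φ : MulAut G) x * x⁻¹ ∈ K
    rw [h3]
    exact Subgroup.characteristic_iff_le_comap.1 hK1 ((MulAut.conj g)⁻¹) (hg x)
  have h4 := H.mul_mem (hinn g) (hK3 h2)
  rwa [mul_inv_cancel_left] at h4

end Pool.Agent.R569.CS
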